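import Mathlib

/-!
# The number of maximal ideals and of maximal filters of a subspace lattice

Let `V` be a vector space of infinite dimension `κ` over a field `F`. We prove that the lattice of
subspaces of `V` has exactly `2 ^ (|F| ^ κ)` maximal ideals and exactly `|F| ^ (2 ^ κ)` maximal
filters.

* Filters, lower bound: subspaces `U A a` (`A` a subset of `κ`, `a` an element of `F`) with
  `U A a ⊓ U A b = ⊥` for `a ≠ b`, such that every finite choice function has a common nonzero vector.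
* Filters, upper bound: a maximal filter is determined by a family of `2 ^ κ` of its members. The
  point is that being met nontrivially inside of a finite-dimensional space is a Noetherian condition
  (exterior algebra), so the condition imposed on `W` by ANY family of pairs (subspace, finite set of
  coordinates) is imposed already by `κ` members of the family; one closes up under `κ`-ary operations.
* Ideals, lower bound: for `χ` in a set of size `|F| ^ κ`, subspaces `U χ`, `W χ` with sum `V`, all of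
  whose mixed finite sums are proper (linear independence of characters).
-/

set_option autoImplicit false
set_option linter.unusedSectionVars false

open Cardinal

namespace Pool.Agent.Results.MP_f0da7f_al.CountMaxIdealsFilters

universe u

/-! ## Definitions -/

section defs

variable (F V : Type u) [Field F] [AddCommGroup V] [Module F V]

/-- An ideal of the lattice of `F`-subspaces of `V`. -/
structure IsIdeal (I : Set (Submodule F V)) : Prop where
  bot_mem : ⊥ ∈ I
  top_notMem : ⊤ ∉ I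
  mem_of_le : ∀ U ∈ I, ∀ W, W ≤ U → W ∈ I
  sup_mem : ∀ U ∈ I, ∀ W ∈ I, U ⊔ W ∈ I

/-- A filter on the lattice of `F`-subspaces of `V`. -/
structure IsFilter (I : Set (Submodule F V)) : Prop where
  top_mem : ⊤ ∈ I
  bot_notMem : ⊥ ∉ I
  mem_of_le : ∀ U ∈ I, ∀ W, U ≤ W → W ∈ I
  inf_mem : ∀ U ∈ I, ∀ W ∈ I, U ⊓ W ∈ I

/-- The set of maximal ideals (maximal under inclusion among the ideals). -/
def MaxIdeals : Set (Set (Submodule F V)) := {I | Maximal (IsIdeal F V) I}

/-- The set of maximal filters (maximal under inclusion among the filters). -/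
def MaxFilters : Set (Set (Submodule F V)) := {I | Maximal (IsFilter F V) I}

end defs

section zorn

variable {F V : Type u} [Field F] [AddCommGroup V] [Module F V]

theorem exists_maxIdeal (S : Set (Submodule F V))
    (hS : ∀ s : Finset (Submodule F V), (s : Set (Submodule F V)) ⊆ S → s.sup id ≠ ⊤) :
    ∃ I ∈ MaxIdeals F V, S ⊆ I := by
  classical
  let J : Set (Submodule F V) := {W | ∃ s : Finset (Submodule F V), (s : Set (Submodule F V)) ⊆ S ∧ W ≤ s.sup id}
  have hJ : IsIdeal F V J := by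
    refine ⟨⟨∅, by simp, by simp⟩, ?_, ?_, ?_⟩
    · rintro ⟨s, hs, h⟩
      exact hS s hs (top_le_iff.1 h)
    · rintro U ⟨s, hs, h⟩ W hW
      exact ⟨s, hs, hW.trans h⟩
    · rintro U ⟨s, hs, h⟩ W ⟨t, ht, h'⟩
      refine ⟨s ∪ t, ?_, ?_⟩
      · rw [Finset.coe_union]; exact Set.union_subset hs ht
      · rw [Finset.sup_union]; exact sup_le_sup h h'
  obtain ⟨m, hm, hmax⟩ := zorn_subset_nonempty {I | IsIdeal F V I} (by
    intro c hc hch hne
    refine ⟨⋃₀ c, ⟨?_, ?_, ?_, ?_⟩, fun s hs => Set.subset_sUnion_of_mem hs⟩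
    · obtain ⟨I, hI⟩ := hne
      exact ⟨I, hI, (hc hI).bot_mem⟩
    · rintro ⟨I, hI, h⟩
      exact (hc hI).top_notMem h
    · rintro U ⟨I, hI, h⟩ W hW
      exact ⟨I, hI, (hc hI).mem_of_le U h W hW⟩
    · rintro U ⟨I, hI, h⟩ W ⟨I', hI', h'⟩
      rcases hch.total hI hI' with h1 | h1
      · exact ⟨I', hI', (hc hI').sup_mem U (h1 h) W h'⟩
      · exact ⟨I, hI, (hc hI).sup_mem U h W (h1 h')⟩) J hJ
  refine ⟨m, hmax, fun U hU => hm ⟨{U}, by simpa using hU, by simp⟩⟩

theorem exists_maxFilter (S : Set (Submodule F V))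
    (hS : ∀ s : Finset (Submodule F V), (s : Set (Submodule F V)) ⊆ S → s.inf id ≠ ⊥) :
    ∃ I ∈ MaxFilters F V, S ⊆ I := by
  classical
  let J : Set (Submodule F V) := {W | ∃ s : Finset (Submodule F V), (s : Set (Submodule F V)) ⊆ S ∧ s.inf id ≤ W}
  have hJ : IsFilter F V J := by
    refine ⟨⟨∅, by simp, by simp⟩, ?_, ?_, ?_⟩
    · rintro ⟨s, hs, h⟩
      exact hS s hs (le_bot_iff.1 h)
    · rintro U ⟨s, hs, h⟩ W hW
      exact ⟨s, hs, h.trans hW⟩
    · rintro U ⟨s, hs, h⟩ W ⟨t, ht, h'⟩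
      refine ⟨s ∪ t, ?_, ?_⟩
      · rw [Finset.coe_union]; exact Set.union_subset hs ht
      · rw [Finset.inf_union]; exact inf_le_inf h h'
  obtain ⟨m, hm, hmax⟩ := zorn_subset_nonempty {I | IsFilter F V I} (by
    intro c hc hch hne
    refine ⟨⋃₀ c, ⟨?_, ?_, ?_, ?_⟩, fun s hs => Set.subset_sUnion_of_mem hs⟩
    · obtain ⟨I, hI⟩ := hne
      exact ⟨I, hI, (hc hI).top_mem⟩
    · rintro ⟨I, hI, h⟩
      exact (hc hI).bot_notMem h
    · rintro U ⟨I, hI, h⟩ W hW
      exact ⟨I, hI, (hc hI).mem_of_le U h W hW⟩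
    · rintro U ⟨I, hI, h⟩ W ⟨I', hI', h'⟩
      rcases hch.total hI hI' with h1 | h1
      · exact ⟨I', hI', (hc hI').inf_mem U (h1 h) W h'⟩
      · exact ⟨I, hI, (hc hI).inf_mem U h W (h1 h')⟩) J hJ
  refine ⟨m, hmax, fun U hU => hm ⟨{U}, by simpa using hU, by simp⟩⟩

/-- A subspace outside of a maximal filter is disjoint from some member of the filter. -/
theorem exists_disjoint {I : Set (Submodule F V)} (hI : I ∈ MaxFilters F V)
    {W : Submodule F V} (hW : W ∉ I) : ∃ U ∈ I, U ⊓ W = ⊥ := by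
  by_contra hcon
  push Not at hcon
  have hI' : IsFilter F V I := hI.1
  let J : Set (Submodule F V) := {X | ∃ U ∈ I, U ⊓ W ≤ X}
  have hJ : IsFilter F V J := by
    refine ⟨⟨⊤, hI'.top_mem, le_top⟩, ?_, ?_, ?_⟩
    · rintro ⟨U, hU, h⟩
      exact hcon U hU (le_bot_iff.1 h)
    · rintro U ⟨U', hU', h⟩ X hX
      exact ⟨U', hU', h.trans hX⟩
    · rintro X ⟨U, hU, h⟩ X' ⟨U', hU', h'⟩
      refine ⟨U ⊓ U', hI'.inf_mem U hU U' hU', ?_⟩
      exact le_inf ((inf_le_inf_right W inf_le_left).trans h)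
        ((inf_le_inf_right W inf_le_right).trans h')
  have h1 : I ≤ J := fun U hU => ⟨U, hU, inf_le_left⟩
  have h2 : J ≤ I := hI.2 hJ h1
  exact hW (h2 ⟨⊤, hI'.top_mem, inf_le_right⟩)

theorem mem_iff {I : Set (Submodule F V)} (hI : I ∈ MaxFilters F V) (W : Submodule F V)
    {G : Set (Submodule F V)} (hG : G ⊆ I)
    (h : ∀ W, W ∉ I → ∃ U ∈ G, U ⊓ W = ⊥) : W ∈ I ↔ ∀ U ∈ G, U ⊓ W ≠ ⊥ := by
  constructor
  · intro hW U hU h0
    exact hI.1.bot_notMem (h0 ▸ hI.1.inf_mem U (hG hU) W hW)
  · intro h1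
    by_contra hW
    obtain ⟨U, hU, h0⟩ := h W hW
    exact h1 U hU h0

end zorn

/-! ## A Noetherian property of intersections in finite-dimensional spaces -/

section noeth

variable {F : Type u} {E : Type*} [Field F] [AddCommGroup E] [Module F E] [FiniteDimensional F E]

/-- the wedge of a basis of `A`. -/
noncomputable def wedge (A : Submodule F E) : ExteriorAlgebra F E :=
  ExteriorAlgebra.ιMulti F (Module.finrank F A) (fun i => ((Module.finBasis F A) i : E))

omit [FiniteDimensional F E] in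
theorem ιMulti_ne_zero {n : ℕ} (v : Fin n → E) (hv : LinearIndependent F v) :
    ExteriorAlgebra.ιMulti F n v ≠ 0 := by
  classical
  -- a left inverse
  obtain ⟨π, hπ⟩ : ∃ π : E →ₗ[F] (Fin n → F), ∀ i, π (v i) = Pi.single i 1 := by
    obtain ⟨f, hf⟩ := (Fintype.linearCombination F v).exists_leftInverse_of_injective
      (LinearMap.ker_eq_bot.2 (linearIndependent_iff_injective_fintypeLinearCombination.1 hv))
    refine ⟨f, fun i => ?_⟩
    have := LinearMap.congr_fun hf (Pi.single i 1)
    simpa using this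
  intro h0
  have h1 := ExteriorAlgebra.liftAlternating_apply_ιMulti (R := F) (N := F)
    (Pi.single n ((Matrix.detRowAlternating (R := F) (n := Fin n)).compLinearMap π)) v
  rw [h0, map_zero, Pi.single_eq_same] at h1
  have h2 : (fun i => π (v i)) = (1 : Matrix (Fin n) (Fin n) F) := by
    ext i j
    rw [hπ, Matrix.one_apply, Pi.single_apply]
    simp [eq_comm]
  rw [AlternatingMap.compLinearMap_apply] at h1
  change 0 = Matrix.det (fun i => π (v i)) at h1
  rw [h2, Matrix.det_one] at h1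
  exact zero_ne_one h1

theorem wedge_mul_eq_zero_iff (A B : Submodule F E) : wedge A * wedge B = 0 ↔ A ⊓ B ≠ ⊥ := by
  unfold wedge
  rw [ExteriorAlgebra.ιMulti_mul_ιMulti]
  set a : Fin (Module.finrank F A) → E := fun i => ((Module.finBasis F A) i : E) with ha
  set b : Fin (Module.finrank F B) → E := fun i => ((Module.finBasis F B) i : E) with hb
  have hspan : ∀ C : Submodule F E,
      Submodule.span F (Set.range fun i => ((Module.finBasis F C) i : E)) = C := by
    intro C
    have h1 : (Set.range fun i => ((Module.finBasis F C) i : E)) =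
        C.subtype '' (Set.range (Module.finBasis F C)) := by
      rw [← Set.range_comp]; rfl
    rw [h1, Submodule.span_image, (Module.finBasis F C).span_eq, Submodule.map_top,
      Submodule.range_subtype]
  have hlin : ∀ C : Submodule F E, LinearIndependent F fun i => ((Module.finBasis F C) i : E) := by
    intro C
    exact (Module.finBasis F C).linearIndependent.map' C.subtype (Submodule.ker_subtype C)
  have key : LinearIndependent F (Fin.append a b) ↔ A ⊓ B = ⊥ := by
    have h1 : Fin.append a b ∘ finSumFinEquiv = Sum.elim a b := by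
      ext x
      rcases x with x | x <;> simp
    rw [← linearIndependent_equiv finSumFinEquiv, h1, linearIndependent_sum]
    have h2 : Sum.elim a b ∘ Sum.inl = a := rfl
    have h3 : Sum.elim a b ∘ Sum.inr = b := rfl
    rw [h2, h3, ha, hb, hspan, hspan, disjoint_iff]
    exact ⟨fun h => h.2.2, fun h => ⟨hlin A, hlin B, h⟩⟩
  constructor
  · intro h0 h
    exact ιMulti_ne_zero _ (key.2 h) h0
  · intro h
    exact AlternatingMap.map_linearDependent _ _ (fun hl => h (key.1 hl))

/-- Any family of subspaces of a finite-dimensional space has a finite subfamily such that every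
subspace that meets all members of the subfamily meets all members of the family. -/
theorem exists_finite_subfamily {T : Type*} (s : Set T) (A : T → Submodule F E) :
    ∃ t : Finset T, (t : Set T) ⊆ s ∧ ∀ B : Submodule F E, (∀ i ∈ t, A i ⊓ B ≠ ⊥) →
      ∀ i ∈ s, A i ⊓ B ≠ ⊥ := by
  classical
  have : FiniteDimensional F (ExteriorAlgebra F E) :=
    Module.Finite.of_basis (Module.finBasis F E).ExteriorAlgebra
  have hfg : (Submodule.span F ((fun i => wedge (A i)) '' s)).FG := IsNoetherian.noetherian _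
  obtain ⟨t', ht', hspan⟩ := (Submodule.fg_span_iff_fg_span_finset_subset _).1 hfg
  obtain ⟨t, hts, rfl⟩ := Finset.subset_set_image_iff.1 ht'
  refine ⟨t, hts, fun B hB i hi => ?_⟩
  rw [← wedge_mul_eq_zero_iff]
  have hmem : wedge (A i) ∈ Submodule.span F ((fun i => wedge (A i)) '' s) :=
    Submodule.subset_span ⟨i, hi, rfl⟩
  rw [hspan] at hmem
  have hle : Submodule.span F (↑(t.image fun i => wedge (A i)) : Set (ExteriorAlgebra F E)) ≤
      LinearMap.ker (LinearMap.mulRight F (wedge B)) := by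
    rw [Submodule.span_le]
    intro x hx
    rw [Finset.coe_image] at hx
    obtain ⟨j, hj, rfl⟩ := hx
    simpa using (wedge_mul_eq_zero_iff (A j) B).2 (hB j hj)
  simpa using hle hmem

end noeth

/-! ## The number of subspaces -/

section upper

variable {F V ι : Type u} [Field F] [AddCommGroup V] [Module F V] [Infinite ι]

theorem two_le_card_field : (2 : Cardinal.{u}) ≤ #F := by
  have : Nontrivial F := inferInstance
  exact Cardinal.two_le_iff.2 ⟨0, 1, zero_ne_one⟩

theorem mk_submodule_le (b : Module.Basis ι F V) : #(Submodule F V) ≤ #F ^ #ι := by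
  have hι : ℵ₀ ≤ #ι := Cardinal.aleph0_le_mk ι
  have h1 : #(Submodule F V) ≤ #(ι → V) := by
    refine Cardinal.mk_le_of_surjective (f := fun f : ι → V => Submodule.span F (Set.range f)) ?_
    intro W
    let c := Module.Basis.ofVectorSpace F W
    have hc : #(Module.Basis.ofVectorSpaceIndex F W) ≤ #ι := by
      rw [c.mk_eq_rank'', b.mk_eq_rank'']
      exact Submodule.rank_le W
    obtain ⟨e⟩ := hc
    classical
    refine ⟨fun i => if h : ∃ j, e j = i then (c h.choose : V) else 0, ?_⟩
    apply le_antisymm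
    · rw [Submodule.span_le]
      rintro x ⟨i, rfl⟩
      simp only
      split_ifs with h
      · exact (c h.choose).2
      · exact W.zero_mem
    · intro x hx
      have h2 : (⟨x, hx⟩ : W) ∈ Submodule.span F (Set.range c) := by
        rw [c.span_eq]; trivial
      have h3 : x ∈ Submodule.span F (W.subtype '' (Set.range c)) := by
        rw [Submodule.span_image]
        exact ⟨⟨x, hx⟩, h2, rfl⟩
      refine Submodule.span_mono ?_ h3
      rintro _ ⟨_, ⟨j, rfl⟩, rfl⟩
      refine ⟨e j, ?_⟩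
      have h4 : ∃ j', e j' = e j := ⟨j, rfl⟩
      simp only [dif_pos h4]
      rw [e.injective h4.choose_spec]
      rfl
  have h2 : #V ≤ #F ^ #ι := by
    rw [Cardinal.mk_congr b.repr.toEquiv, Cardinal.mk_finsupp_of_infinite]
    refine max_le ?_ ?_
    · exact (Cardinal.cantor _).le.trans (Cardinal.power_le_power_right two_le_card_field)
    · calc #F = #F ^ (1 : Cardinal) := (Cardinal.power_one _).symm
        _ ≤ #F ^ #ι := Cardinal.power_le_power_left (Cardinal.mk_ne_zero F)
            (Cardinal.one_le_aleph0.trans hι)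
  calc #(Submodule F V) ≤ #(ι → V) := h1
    _ = #V ^ #ι := by simp
    _ ≤ (#F ^ #ι) ^ #ι := Cardinal.power_le_power_right h2
    _ = #F ^ #ι := by rw [← Cardinal.power_mul, Cardinal.mul_eq_self hι]

/-! ## The upper bound for the number of maximal filters -/

/-- The arities of the trees below. -/
def Arity (ι : Type u) : Option (ι → Finset ι) → Type u
  | none => PEmpty
  | some _ => ι

theorem mk_tree_le : #(WType (Arity ι)) ≤ 2 ^ #ι := by
  have hι : ℵ₀ ≤ #ι := Cardinal.aleph0_le_mk ι
  have h2 : (2 : Cardinal.{u}) ^ #ι * 2 ^ #ι = 2 ^ #ι := by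
    rw [← Cardinal.power_add, Cardinal.add_eq_self hι]
  have h1 : (1 : Cardinal.{u}) ≤ 2 ^ #ι := by
    calc (1 : Cardinal.{u}) ≤ ℵ₀ := Cardinal.one_le_aleph0
      _ ≤ #ι := hι
      _ ≤ 2 ^ #ι := (Cardinal.cantor _).le
  refine WType.cardinalMk_le_of_le ?_
  calc Cardinal.sum (fun a => (2 ^ #ι : Cardinal.{u}) ^ #(Arity ι a))
      ≤ Cardinal.sum (fun _ : Option (ι → Finset ι) => (2 ^ #ι : Cardinal.{u})) := by
        refine Cardinal.sum_le_sum _ _ fun a => ?_
        rcases a with _ | a
        · change (2 ^ #ι : Cardinal.{u}) ^ #PEmpty ≤ _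
          simpa using h1
        · change (2 ^ #ι : Cardinal.{u}) ^ #ι ≤ _
          rw [← Cardinal.power_mul, Cardinal.mul_eq_self hι]
    _ = #(Option (ι → Finset ι)) * 2 ^ #ι := by simp
    _ ≤ 2 ^ #ι * 2 ^ #ι := by
        gcongr
        rw [Cardinal.mk_option]
        have h3 : #(ι → Finset ι) = 2 ^ #ι := by
          rw [← Cardinal.power_def, Cardinal.mk_finset_of_infinite, Cardinal.power_self_eq hι]
        rw [h3]
        calc (2 : Cardinal.{u}) ^ #ι + 1 ≤ 2 ^ #ι + 2 ^ #ι := by gcongr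
          _ = 2 ^ #ι := Cardinal.add_eq_self (hι.trans (Cardinal.cantor _).le)
    _ = 2 ^ #ι := h2

variable (b : Module.Basis ι F V)

/-- The span of finitely many basis vectors. -/
def coord (S : Finset ι) : Submodule F V := Submodule.span F (b '' (S : Set ι))

open Classical in
/-- The evaluation of a tree in a filter. -/
noncomputable def ev (I : Set (Submodule F V)) : WType (Arity ι) → Submodule F V
  | WType.mk none _ => ⊤
  | WType.mk (some σ) f =>
    if h : ∃ U : Submodule F V, U ∈ I ∧ ∃ W : Submodule F V, U ⊓ W = ⊥ ∧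
      ∀ i : ι, ev I (f i) ⊓ W ⊓ coord b (σ i) ≠ ⊥ then h.choose else ⊤

theorem ev_node (I : Set (Submodule F V)) (σ : ι → Finset ι) (f : ι → WType (Arity ι))
    (h : ∃ U : Submodule F V, U ∈ I ∧ ∃ W : Submodule F V, U ⊓ W = ⊥ ∧
      ∀ i : ι, ev b I (f i) ⊓ W ⊓ coord b (σ i) ≠ ⊥) :
    ev b I (WType.mk (some σ) f) = h.choose := by
  have h1 : ev b I (WType.mk (some σ) f) = _ := ev.eq_2 b I σ f
  rw [h1]
  exact dif_pos h

theorem ev_mem {I : Set (Submodule F V)} (hI : ⊤ ∈ I) (t : WType (Arity ι)) : ev b I t ∈ I := by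
  rcases t with ⟨_ | σ, f⟩
  · simpa [ev] using hI
  · rw [ev]
    split_ifs with h
    · exact h.choose_spec.1
    · exact hI

theorem exists_coord {X : Submodule F V} (hX : X ≠ ⊥) : ∃ S : Finset ι, X ⊓ coord b S ≠ ⊥ := by
  obtain ⟨x, hx, hx0⟩ := (Submodule.ne_bot_iff _).1 hX
  refine ⟨(b.repr x).support, (Submodule.ne_bot_iff _).2 ⟨x, ⟨hx, ?_⟩, hx0⟩⟩
  exact b.mem_span_repr_support x

theorem comap_inf_ne_bot_iff (U W : Submodule F V) (S : Finset ι) :
    (U.comap (coord b S).subtype) ⊓ (W.comap (coord b S).subtype) ≠ ⊥ ↔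
      U ⊓ W ⊓ coord b S ≠ ⊥ := by
  rw [Submodule.ne_bot_iff, Submodule.ne_bot_iff]
  constructor
  · rintro ⟨x, hx, hx0⟩
    exact ⟨x, ⟨⟨hx.1, hx.2⟩, x.2⟩, fun h => hx0 (Subtype.ext h)⟩
  · rintro ⟨x, ⟨⟨hx1, hx2⟩, hx3⟩, hx0⟩
    exact ⟨⟨x, hx3⟩, ⟨hx1, hx2⟩, fun h => hx0 (congrArg Subtype.val h)⟩

theorem exists_ev_disjoint {I : Set (Submodule F V)} (hI : I ∈ MaxFilters F V)
    {W : Submodule F V} (hW : W ∉ I) : ∃ t : WType (Arity ι), ev b I t ⊓ W = ⊥ := by
  classical
  by_contra hcon
  push Not at hcon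
  choose S hS using fun t => exists_coord b (hcon t)
  have hfin : ∀ S' : Finset ι, FiniteDimensional F (coord b S') := fun S' =>
    FiniteDimensional.span_of_finite F (S'.finite_toSet.image _)
  have h1 := fun S' : Finset ι => exists_finite_subfamily (F := F) (E := coord b S')
    {t | S t = S'} (fun t => (ev b I t).comap (coord b S').subtype)
  choose T hT1 hT2 using h1
  -- the set of all chosen trees
  have hcard : #(Option (Σ S' : Finset ι, T S')) ≤ #ι := by
    have hι : ℵ₀ ≤ #ι := Cardinal.aleph0_le_mk ι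
    rw [Cardinal.mk_option, Cardinal.mk_sigma]
    have h3 : Cardinal.sum (fun S' : Finset ι => #(T S')) ≤ #ι := by
      calc Cardinal.sum (fun S' : Finset ι => #(T S'))
          ≤ Cardinal.sum (fun _ : Finset ι => (ℵ₀ : Cardinal.{u})) := by
            refine Cardinal.sum_le_sum _ _ fun a => ?_
            exact (Cardinal.lt_aleph0_of_finite _).le
        _ = #(Finset ι) * ℵ₀ := by simp
        _ ≤ #ι * #ι := by
            rw [Cardinal.mk_finset_of_infinite]
            gcongr
        _ = #ι := Cardinal.mul_eq_self hι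
    calc Cardinal.sum (fun S' : Finset ι => #(T S')) + 1 ≤ #ι + #ι := by
          gcongr
          exact Cardinal.one_le_aleph0.trans hι
      _ = #ι := Cardinal.add_eq_self hι
  obtain ⟨e⟩ := hcard
  let t₀ : WType (Arity ι) := WType.mk none (fun x => x.elim)
  let g : Option (Σ S' : Finset ι, T S') → WType (Arity ι) := fun o => o.elim t₀ (fun x => x.2.1)
  let f : ι → WType (Arity ι) := fun i => g (Function.invFun e i)
  have hf : ∀ S' : Finset ι, ∀ t ∈ T S', ∃ i, f i = t := by
    intro S' t ht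
    refine ⟨e (some ⟨S', ⟨t, ht⟩⟩), ?_⟩
    change g _ = _
    rw [Function.leftInverse_invFun e.injective]
    rfl
  let ts : WType (Arity ι) := WType.mk (some fun i => S (f i)) f
  obtain ⟨U, hU, hUW⟩ := exists_disjoint hI hW
  have hex : ∃ U : Submodule F V, U ∈ I ∧ ∃ W : Submodule F V, U ⊓ W = ⊥ ∧
      ∀ i : ι, ev b I (f i) ⊓ W ⊓ coord b (S (f i)) ≠ ⊥ := ⟨U, hU, W, hUW, fun i => hS (f i)⟩
  have hts : ev b I ts = hex.choose := by
    exact ev_node b I (fun i => S (f i)) f hex
  obtain ⟨W', hW'1, hW'2⟩ := hex.choose_spec.2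
  rw [← hts] at hW'1
  have h4 := hT2 (S ts) (W'.comap (coord b (S ts)).subtype) (by
    intro t ht
    rw [comap_inf_ne_bot_iff]
    obtain ⟨i, rfl⟩ := hf _ t ht
    have h5 : S (f i) = S ts := hT1 _ ht
    rw [← h5]
    exact hW'2 i) ts rfl
  rw [comap_inf_ne_bot_iff, hW'1] at h4
  simp at h4

theorem mk_maxFilters_le (b : Module.Basis ι F V) : #(MaxFilters F V) ≤ #F ^ (2 ^ #ι : Cardinal.{u}) := by
  have hι : ℵ₀ ≤ #ι := Cardinal.aleph0_le_mk ι
  have h1 : #(MaxFilters F V) ≤ #(WType (Arity ι) → Submodule F V) := by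
    refine Cardinal.mk_le_of_injective (f := fun I : MaxFilters F V => ev b I.1) ?_
    intro I J hIJ
    have key : ∀ I : MaxFilters F V, ∀ W : Submodule F V,
        W ∈ I.1 ↔ ∀ t, ev b I.1 t ⊓ W ≠ ⊥ := by
      intro I W
      rw [mem_iff I.2 W (G := Set.range (ev b I.1))]
      · simp
      · rintro _ ⟨t, rfl⟩
        exact ev_mem b I.2.1.top_mem t
      · intro W hW
        obtain ⟨t, ht⟩ := exists_ev_disjoint b I.2 hW
        exact ⟨_, ⟨t, rfl⟩, ht⟩
    apply Subtype.ext
    ext W
    rw [key, key]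
    simp only at hIJ
    rw [hIJ]
  calc #(MaxFilters F V) ≤ #(WType (Arity ι) → Submodule F V) := h1
    _ = #(Submodule F V) ^ #(WType (Arity ι)) := by simp
    _ ≤ (#F ^ #ι) ^ #(WType (Arity ι)) := Cardinal.power_le_power_right (mk_submodule_le b)
    _ ≤ (#F ^ #ι) ^ (2 ^ #ι : Cardinal.{u}) :=
        Cardinal.power_le_power_left (Cardinal.power_ne_zero _ (Cardinal.mk_ne_zero F)) mk_tree_le
    _ = #F ^ (2 ^ #ι : Cardinal.{u}) := by
        rw [← Cardinal.power_mul, Cardinal.mul_eq_right (hι.trans (Cardinal.cantor _).le)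
          (Cardinal.cantor _).le (Cardinal.mk_ne_zero ι)]

theorem mk_maxIdeals_le (b : Module.Basis ι F V) : #(MaxIdeals F V) ≤ 2 ^ (#F ^ #ι) := by
  calc #(MaxIdeals F V) ≤ #(Set (Submodule F V)) := Cardinal.mk_set_le _
    _ = 2 ^ #(Submodule F V) := Cardinal.mk_set
    _ ≤ 2 ^ (#F ^ #ι) := Cardinal.power_le_power_left two_ne_zero (mk_submodule_le b)

end upper

/-! ## The lower bound for the number of maximal filters -/

section lowerFilters

variable {F V ι X : Type u} [Field F] [AddCommGroup V] [Module F V]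

theorem le_mk_maxFilters (U : X → F → Submodule F V)
    (h1 : ∀ A a b v, a ≠ b → v ∈ U A a → v ∈ U A b → v = 0)
    (h2 : ∀ (s : Finset X) (φ : X → F), ∃ v : V, v ≠ 0 ∧ ∀ A ∈ s, v ∈ U A (φ A)) :
    #F ^ #X ≤ #(MaxFilters F V) := by
  classical
  have h3 : ∀ φ : X → F, ∃ I ∈ MaxFilters F V, (Set.range fun A => U A (φ A)) ⊆ I := by
    intro φ
    refine exists_maxFilter _ ?_
    intro s hs h0
    rw [← Set.image_univ] at hs
    obtain ⟨t, -, rfl⟩ := Finset.subset_set_image_iff.1 hs
    obtain ⟨v, hv0, hv⟩ := h2 t φ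
    have h4 : v ∈ (t.image fun A => U A (φ A)).inf id := by
      rw [Submodule.mem_finsetInf]
      intro i hi
      obtain ⟨A, hA, rfl⟩ := Finset.mem_image.1 hi
      exact hv A hA
    rw [h0] at h4
    exact hv0 ((Submodule.mem_bot F).1 h4)
  choose I hI hI' using h3
  rw [Cardinal.power_def]
  refine Cardinal.mk_le_of_injective (f := fun φ : X → F => (⟨I φ, hI φ⟩ : MaxFilters F V)) ?_
  intro φ ψ hφψ
  funext A
  by_contra hne
  have h5 : I φ = I ψ := congrArg Subtype.val hφψ
  have h6 : U A (φ A) ∈ I φ := hI' φ ⟨A, rfl⟩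
  have h7 : U A (ψ A) ∈ I φ := h5 ▸ hI' ψ ⟨A, rfl⟩
  have h8 : U A (φ A) ⊓ U A (ψ A) = ⊥ := by
    rw [Submodule.eq_bot_iff]
    rintro v ⟨hv, hv'⟩
    exact h1 A _ _ v hne hv hv'
  exact (hI φ).1.bot_notMem (h8 ▸ (hI φ).1.inf_mem _ h6 _ h7)

open Classical in
/-- The trace of `A` on `S`. -/
noncomputable def tr (A : Set ι) (S : Finset ι) : Finset ι := S.filter (· ∈ A)

open Classical in
/-- The subspaces of the filter construction. -/
def UF (A : Set ι) (a : F) : Submodule F ((Finset ι × Finset (Finset ι)) →₀ F) where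
  carrier := {v | (∀ S g, ¬ g ⊆ S.powerset → v (S, g) = 0) ∧
    ∀ S g, tr A S ∉ g → v (S, insert (tr A S) g) = a * v (S, g)}
  zero_mem' := by simp
  add_mem' := by
    rintro v w ⟨hv, hv'⟩ ⟨hw, hw'⟩
    refine ⟨fun S g h => ?_, fun S g h => ?_⟩
    · rw [Finsupp.add_apply, hv S g h, hw S g h, add_zero]
    · rw [Finsupp.add_apply, Finsupp.add_apply, hv' S g h, hw' S g h, mul_add]
  smul_mem' := by
    rintro c v ⟨hv, hv'⟩
    refine ⟨fun S g h => ?_, fun S g h => ?_⟩
    · rw [Finsupp.smul_apply, hv S g h, smul_zero]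
    · rw [Finsupp.smul_apply, Finsupp.smul_apply, hv' S g h, smul_eq_mul, smul_eq_mul]
      ring

theorem UF_disjoint (A : Set ι) (a b : F) (v : (Finset ι × Finset (Finset ι)) →₀ F) (hab : a ≠ b)
    (ha : v ∈ UF A a) (hb : v ∈ UF A b) : v = 0 := by
  classical
  have h1 : ∀ S g, tr A S ∉ g → v (S, g) = 0 := by
    intro S g h
    have h2 := ha.2 S g h
    rw [hb.2 S g h] at h2
    have h3 : (a - b) * v (S, g) = 0 := by rw [sub_mul, h2, sub_self]
    exact (mul_eq_zero.1 h3).resolve_left (sub_ne_zero.2 hab)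
  ext ⟨S, g⟩
  by_cases h : tr A S ∈ g
  · have h2 := ha.2 S (g.erase (tr A S)) (by simp)
    rw [Finset.insert_erase h, h1 S (g.erase (tr A S)) (Finset.notMem_erase _ _), mul_zero] at h2
    simpa using h2
  · simpa using h1 S g h

theorem UF_meet (s : Finset (Set ι)) (φ : Set ι → F) :
    ∃ v : (Finset ι × Finset (Finset ι)) →₀ F, v ≠ 0 ∧ ∀ A ∈ s, v ∈ UF A (φ A) := by
  classical
  -- a separating finite set
  obtain ⟨S, hS⟩ : ∃ S : Finset ι, Set.InjOn (fun A => tr A S) (s : Set (Set ι)) := by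
    have h1 : ∀ p : Set ι × Set ι, ∃ T : Finset ι, p.1 ≠ p.2 → ∃ x ∈ T, ¬ (x ∈ p.1 ↔ x ∈ p.2) := by
      intro p
      by_cases h : p.1 = p.2
      · exact ⟨∅, fun h' => absurd h h'⟩
      · have h2 : ∃ x, ¬ (x ∈ p.1 ↔ x ∈ p.2) := by
          by_contra hcon
          push Not at hcon
          exact h (Set.ext hcon)
        obtain ⟨x, hx⟩ := h2
        exact ⟨{x}, fun _ => ⟨x, by simp, hx⟩⟩
    choose T hT using h1
    refine ⟨(s ×ˢ s).biUnion T, ?_⟩
    intro A hA B hB hAB
    by_contra hne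
    obtain ⟨x, hx, hx'⟩ := hT (A, B) hne
    have hxS : x ∈ (s ×ˢ s).biUnion T :=
      Finset.mem_biUnion.2 ⟨(A, B), Finset.mem_product.2 ⟨hA, hB⟩, hx⟩
    have h3 := Finset.ext_iff.1 hAB x
    simp only [tr, Finset.mem_filter, hxS, true_and] at h3
    exact hx' h3
  let c : Finset ι → F := fun t => φ (Function.invFunOn (fun A => tr A S) s t)
  have hc : ∀ A ∈ s, c (tr A S) = φ A := by
    intro A hA
    exact congrArg φ (hS.leftInvOn_invFunOn hA)
  let v : (Finset ι × Finset (Finset ι)) →₀ F := Finsupp.onFinset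
    ({S} ×ˢ S.powerset.powerset)
    (fun p => if p.1 = S ∧ p.2 ⊆ S.powerset then ∏ t ∈ p.2, c t else 0) (by
      intro p hp
      rw [ne_eq, ite_eq_right_iff, not_forall] at hp
      obtain ⟨h, -⟩ := hp
      exact Finset.mem_product.2 ⟨by simpa using h.1, by simpa using h.2⟩)
  have hv : ∀ S' g, v (S', g) = if S' = S ∧ g ⊆ S.powerset then ∏ t ∈ g, c t else 0 := fun _ _ => rfl
  refine ⟨v, ?_, fun A hA => ⟨?_, ?_⟩⟩
  · intro h0
    have h1 : v (S, ∅) = 0 := by rw [h0]; rfl
    rw [hv, if_pos (by simp)] at h1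
    simp at h1
  · intro S' g hg
    rw [hv, if_neg]
    rintro ⟨rfl, h⟩
    exact hg h
  · intro S' g hg
    rw [hv, hv]
    by_cases h : S' = S ∧ g ⊆ S.powerset
    · obtain ⟨rfl, hgS⟩ := h
      have h1 : insert (tr A S') g ⊆ S'.powerset := by
        refine Finset.insert_subset ?_ hgS
        exact Finset.mem_powerset.2 (Finset.filter_subset _ _)
      rw [if_pos ⟨rfl, h1⟩, if_pos ⟨rfl, hgS⟩, Finset.prod_insert hg, hc A hA]
    · rw [if_neg h, if_neg, mul_zero]
      rintro ⟨h1, h2⟩
      exact h ⟨h1, (Finset.subset_insert _ _).trans h2⟩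

theorem le_mk_maxFilters' [Infinite ι] (b : Module.Basis ι F V) :
    #F ^ (2 ^ #ι : Cardinal.{u}) ≤ #(MaxFilters F V) := by
  have hι : ℵ₀ ≤ #ι := Cardinal.aleph0_le_mk ι
  have hrank : Module.rank F V = Module.rank F ((Finset ι × Finset (Finset ι)) →₀ F) := by
    rw [← b.mk_eq_rank'', rank_finsupp_self']
    simp [Cardinal.mul_eq_self hι]
  obtain ⟨e⟩ := nonempty_linearEquiv_of_rank_eq hrank
  rw [← Cardinal.mk_set]
  refine le_mk_maxFilters (fun A a => (UF A a).comap (e : V →ₗ[F] _)) ?_ ?_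
  · intro A a b v hab ha hb
    exact (LinearEquiv.map_eq_zero_iff e).1 (UF_disjoint A a b (e v) hab ha hb)
  · intro s φ
    obtain ⟨v, hv0, hv⟩ := UF_meet s φ
    refine ⟨e.symm v, by simpa using hv0, fun A hA => ?_⟩
    have : e (e.symm v) ∈ UF A (φ A) := by
      rw [LinearEquiv.apply_symm_apply]
      exact hv A hA
    exact this

end lowerFilters

/-! ## The lower bound for the number of maximal ideals -/

section lowerIdeals

variable {F V ι X : Type u} [Field F] [AddCommGroup V] [Module F V]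

theorem le_mk_maxIdeals (U W : X → Submodule F V)
    (h1 : ∀ x v, ∃ u ∈ U x, ∃ w ∈ W x, u + w = v)
    (h2 : ∀ (s : Finset X) (E : Set X), ∃ f : V →ₗ[F] F, f ≠ 0 ∧ ∀ x ∈ s,
      (x ∈ E → U x ≤ LinearMap.ker f) ∧ (x ∉ E → W x ≤ LinearMap.ker f)) :
    2 ^ #X ≤ #(MaxIdeals F V) := by
  classical
  have h3 : ∀ E : Set X, ∃ I ∈ MaxIdeals F V,
      (Set.range fun x => if x ∈ E then U x else W x) ⊆ I := by
    intro E
    refine exists_maxIdeal _ ?_
    intro s hs h0
    rw [← Set.image_univ] at hs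
    obtain ⟨t, -, rfl⟩ := Finset.subset_set_image_iff.1 hs
    obtain ⟨f, hf0, hf⟩ := h2 t E
    have h4 : (t.image fun x => if x ∈ E then U x else W x).sup id ≤ LinearMap.ker f := by
      refine Finset.sup_le ?_
      intro i hi
      obtain ⟨x, hx, rfl⟩ := Finset.mem_image.1 hi
      by_cases hxE : x ∈ E
      · simpa [hxE] using (hf x hx).1 hxE
      · simpa [hxE] using (hf x hx).2 hxE
    rw [h0, top_le_iff, LinearMap.ker_eq_top] at h4
    exact hf0 h4
  choose I hI hI' using h3
  rw [← Cardinal.mk_set]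
  refine Cardinal.mk_le_of_injective (f := fun E : Set X => (⟨I E, hI E⟩ : MaxIdeals F V)) ?_
  have key : ∀ E E' : Set X, I E = I E' → E ⊆ E' := by
    intro E E' h5 x hx
    by_contra hx'
    have h6 : U x ∈ I E := hI' E ⟨x, by simp [hx]⟩
    have h7 : W x ∈ I E := h5 ▸ hI' E' ⟨x, by simp [hx']⟩
    have h8 : U x ⊔ W x = ⊤ := by
      rw [eq_top_iff]
      intro v _
      obtain ⟨u, hu, w, hw, rfl⟩ := h1 x v
      exact Submodule.add_mem_sup hu hw
    exact (hI E).1.top_notMem (h8 ▸ (hI E).1.sup_mem _ h6 _ h7)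
  intro E E' hEE'
  have h5 : I E = I E' := congrArg Subtype.val hEE'
  exact Set.Subset.antisymm (key _ _ h5) (key _ _ h5.symm)

/-- The monoid of words. -/
abbrev M (ι : Type u) := FreeMonoid ι

/-- The polynomial `∑_{w ∈ D} χ(w) x_w`. -/
noncomputable def pol (χ : M ι →* F) (D : Finset (M ι)) : MvPolynomial (M ι) F :=
  ∑ w ∈ D, MvPolynomial.C (χ w) * MvPolynomial.X w

/-- The families all of whose terms are divisible by the given polynomials. -/
def dvdSub (p : Finset (M ι) → MvPolynomial (M ι) F) :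
    Submodule F (Finset (M ι) →₀ MvPolynomial (M ι) F) where
  carrier := {v | ∀ D, p D ∣ v D}
  zero_mem' := by simp
  add_mem' := fun {v w} hv hw D => by
    rw [Finsupp.add_apply]; exact dvd_add (hv D) (hw D)
  smul_mem' := fun c v hv D => by
    rw [Finsupp.smul_apply, MvPolynomial.smul_eq_C_mul]
    exact (hv D).mul_left _

theorem exists_coeff (s : Finset (M ι →* F)) (ε : (M ι →* F) → F) :
    ∃ x : M ι →₀ F, ∀ χ ∈ s, (x.sum fun w c => c * χ w) = ε χ := by
  classical
  let Φ : (M ι →₀ F) →ₗ[F] (s → F) :=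
    LinearMap.pi fun χ => Finsupp.linearCombination F (fun w => (χ : M ι →* F) w)
  have hsurj : LinearMap.range Φ = ⊤ := by
    by_contra hne
    obtain ⟨g, hg0, hg⟩ := Submodule.exists_le_ker_of_lt_top _ (lt_top_iff_ne_top.2 hne)
    apply hg0
    have hlin := (linearIndependent_monoidHom (M ι) F).comp (fun χ : s => (χ : M ι →* F))
      Subtype.val_injective
    rw [Fintype.linearIndependent_iff] at hlin
    have h1 := hlin (fun χ => g (Pi.single χ 1)) (by
      funext w
      have h2 : g (Φ (Finsupp.single w 1)) = 0 := hg ⟨_, rfl⟩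
      have h3 : Φ (Finsupp.single w 1) = ∑ χ : s, ((χ : M ι →* F) w) • (Pi.single χ (1 : F)) := by
        funext χ
        simp [Φ, Finset.sum_apply, Pi.single_apply]
      rw [h3, map_sum] at h2
      simp only [map_smul, smul_eq_mul] at h2
      simpa [Finset.sum_apply, mul_comm] using h2)
    refine LinearMap.pi_ext' fun χ => LinearMap.ext_ring ?_
    simpa using h1 χ
  obtain ⟨x, hx⟩ := (LinearMap.range_eq_top.1 hsurj) (fun χ => ε χ)
  refine ⟨x, fun χ hχ => ?_⟩
  have h4 := congrFun hx ⟨χ, hχ⟩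
  simpa [Φ, Finsupp.linearCombination_apply] using h4

theorem eval_pol (χ : M ι →* F) (x : M ι →₀ F) :
    MvPolynomial.eval x (pol χ x.support) = x.sum fun w c => c * χ w := by
  simp [pol, Finsupp.sum, mul_comm]

theorem le_mk_maxIdeals' [Infinite ι] (b : Module.Basis ι F V) :
    2 ^ (#F ^ #ι) ≤ #(MaxIdeals F V) := by
  classical
  have hι : ℵ₀ ≤ #ι := Cardinal.aleph0_le_mk ι
  have hM : #(M ι) = #ι := Cardinal.mk_list_eq_mk ι
  have : Infinite (M ι) := by
    rw [Cardinal.infinite_iff, hM]; exact hι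
  have hrank : Module.rank F V =
      Module.rank F (Finset (M ι) →₀ MvPolynomial (M ι) F) := by
    rw [← b.mk_eq_rank'', rank_finsupp', MvPolynomial.rank_eq, Cardinal.mk_finset_of_infinite,
      Cardinal.mk_finsupp_nat, hM, max_eq_left hι, Cardinal.mul_eq_self hι]
  obtain ⟨e⟩ := nonempty_linearEquiv_of_rank_eq hrank
  have hX : #(M ι →* F) = #F ^ #ι := by
    rw [Cardinal.power_def]
    exact Cardinal.mk_congr FreeMonoid.lift.symm
  rw [← hX]
  refine le_mk_maxIdeals (X := M ι →* F)
    (fun χ => (dvdSub (pol χ)).comap (e : V →ₗ[F] _))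
    (fun χ => (dvdSub (fun D => pol χ D - 1)).comap (e : V →ₗ[F] _)) ?_ ?_
  · intro χ v
    let u : Finset (M ι) →₀ MvPolynomial (M ι) F :=
      Finsupp.onFinset (e v).support (fun D => pol χ D * e v D) (by
        intro D hD
        rw [Finsupp.mem_support_iff]
        exact right_ne_zero_of_mul hD)
    let w : Finset (M ι) →₀ MvPolynomial (M ι) F :=
      Finsupp.onFinset (e v).support (fun D => (pol χ D - 1) * (- e v D)) (by
        intro D hD
        rw [Finsupp.mem_support_iff]
        exact neg_ne_zero.1 (right_ne_zero_of_mul hD))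
    refine ⟨e.symm u, ?_, e.symm w, ?_, ?_⟩
    · change e (e.symm u) ∈ dvdSub _
      rw [LinearEquiv.apply_symm_apply]
      exact fun D => Dvd.intro _ rfl
    · change e (e.symm w) ∈ dvdSub _
      rw [LinearEquiv.apply_symm_apply]
      exact fun D => Dvd.intro _ rfl
    · rw [← map_add, LinearEquiv.symm_apply_eq]
      refine Finsupp.ext fun D => ?_
      change pol χ D * e v D + (pol χ D - 1) * (- e v D) = e v D
      ring
  · intro s E
    obtain ⟨x, hx⟩ := exists_coeff s (fun χ => if χ ∈ E then (0 : F) else 1)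
    let f : (Finset (M ι) →₀ MvPolynomial (M ι) F) →ₗ[F] F :=
      (MvPolynomial.aeval (R := F) x).toLinearMap ∘ₗ Finsupp.lapply x.support
    have hf : ∀ v, f v = MvPolynomial.eval x (v x.support) := by
      intro v
      simp [f, MvPolynomial.coe_aeval_eq_eval]
    refine ⟨f ∘ₗ (e : V →ₗ[F] _), ?_, fun χ hχ => ⟨fun h => ?_, fun h => ?_⟩⟩
    · intro h0
      have h1 := LinearMap.congr_fun h0 (e.symm (Finsupp.single x.support 1))
      simp [hf] at h1
    · intro v hv
      have hv' : pol χ x.support ∣ e v x.support := hv x.support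
      obtain ⟨q, hq⟩ := hv'
      rw [LinearMap.mem_ker, LinearMap.comp_apply, hf]
      change MvPolynomial.eval x (e v x.support) = 0
      rw [hq, map_mul, eval_pol, hx χ hχ, if_pos h, zero_mul]
    · intro v hv
      have hv' : pol χ x.support - 1 ∣ e v x.support := hv x.support
      obtain ⟨q, hq⟩ := hv'
      rw [LinearMap.mem_ker, LinearMap.comp_apply, hf]
      change MvPolynomial.eval x (e v x.support) = 0
      rw [hq, map_mul, map_sub, eval_pol, hx χ hχ, if_neg h, map_one, sub_self, zero_mul]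

end lowerIdeals

/-- **Full answer to Q1.** Let `V` be a vector space of infinite dimension `κ` over a field `F`.
The lattice of subspaces of `V` has exactly `2 ^ (|F| ^ κ)` maximal ideals and exactly
`|F| ^ (2 ^ κ)` maximal filters. -/
theorem result (F V : Type u) [Field F] [AddCommGroup V] [Module F V]
    (hV : ℵ₀ ≤ Module.rank F V) :
    #(MaxIdeals F V) = 2 ^ (#F ^ Module.rank F V) ∧
      #(MaxFilters F V) = #F ^ (2 ^ Module.rank F V : Cardinal.{u}) := by
  let b := Module.Basis.ofVectorSpace F V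
  have hb : #(Module.Basis.ofVectorSpaceIndex F V) = Module.rank F V := b.mk_eq_rank''
  have : Infinite (Module.Basis.ofVectorSpaceIndex F V) := by
    rw [Cardinal.infinite_iff, hb]; exact hV
  rw [← hb]
  exact ⟨le_antisymm (mk_maxIdeals_le b) (le_mk_maxIdeals' b),
    le_antisymm (mk_maxFilters_le b) (le_mk_maxFilters' b)⟩

end Pool.Agent.Results.MP_f0da7f_al.CountMaxIdealsFilters
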